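import Mathlib
import Pool.Agent.Lib.MP_ed661f_ag.E.Mlt

set_option autoImplicit false

open MvPolynomial

namespace Pool.Agent.Lib.MP_ed661f_ag.A

open Pool.Agent.Lib.MP_ed661f_ag.E

theorem all_bound {n : ℕ} {p : Fin n → Fin 2 → ℂ} {c : ℝ} (hc : 0 ≤ c)
    (h : ∀ f : MvPolynomial (Fin 2) ℂ, Irreducible f →
        (∑ i, (mlt (p i) f : ℝ)) * c ≤ f.totalDegree) :
    ∀ f : MvPolynomial (Fin 2) ℂ, f ≠ 0 → (∑ i, (mlt (p i) f : ℝ)) * c ≤ f.totalDegree := by
  intro f
  refine WfDvdMonoid.induction_on_irreducible (motive := fun f => f ≠ 0 →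
    (∑ i, (mlt (p i) f : ℝ)) * c ≤ f.totalDegree) f ?_ ?_ ?_
  · intro h0
    exact absurd rfl h0
  · intro u hu _
    have h1 : ∀ i, mlt (p i) u = 0 := fun i => mlt_unit hu
    simp only [h1, Nat.cast_zero, Finset.sum_const_zero, zero_mul]
    positivity
  · intro a i ha hi ih _
    have h1 : ∀ l, (mlt (p l) (i * a) : ℝ) = mlt (p l) i + mlt (p l) a := by
      intro l
      rw [mlt_mul hi.ne_zero ha]
      push_cast
      rfl
    simp only [h1]
    rw [Finset.sum_add_distrib, add_mul, totalDegree_mul_of_isDomain hi.ne_zero ha]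
    push_cast
    exact add_le_add (h i hi) (ih ha)

end Pool.Agent.Lib.MP_ed661f_ag.A
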