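import Mathlib

set_option autoImplicit false

open MvPolynomial

namespace Pool.Agent.Lib.MP_ed661f_ag.A

/-- automorphisms of `ℂ` permuting algebraically independent numbers -/
theorem exists_aut {ι : Type} [Finite ι] {t : ι → ℂ} (ht : AlgebraicIndependent ℚ t)
    (σ : Equiv.Perm ι) : ∃ φ : ℂ ≃+* ℂ, ∀ i, φ (t i) = t (σ i) := by
  classical
  have hts : AlgebraicIndepOn ℚ id (Set.range t) := ht.coe_range
  obtain ⟨s, hs, hsb⟩ := exists_isTranscendenceBasis_superset hts
  set v : s → ℂ := fun x => (x : ℂ) with hv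
  have hvb : IsTranscendenceBasis ℚ v := hsb
  -- extension of the permutation
  let p : s → Prop := fun x => (x : ℂ) ∈ Set.range t
  let f : ι ≃ Subtype p := Equiv.ofBijective
    (fun i => ⟨⟨t i, hs ⟨i, rfl⟩⟩, ⟨i, rfl⟩⟩) (by
      constructor
      · intro i j hij
        apply ht.injective
        have h1 := congrArg (fun x : Subtype p => ((x : s) : ℂ)) hij
        exact h1
      · rintro ⟨⟨x, hx⟩, ⟨i, hi⟩⟩
        refine ⟨i, ?_⟩
        apply Subtype.ext
        apply Subtype.ext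
        exact hi)
  let τ : Equiv.Perm s := σ.extendDomain f
  have hτ : ∀ i, v (τ (f i)) = t (σ i) := by
    intro i
    have h1 : τ (f i) = f (σ i) := Equiv.Perm.extendDomain_apply_image σ f i
    rw [h1]
    rfl
  have hf : ∀ i, v (f i) = t i := fun i => rfl
  have := IsAlgClosed.isAlgClosure_of_transcendence_basis v hvb
  let e : Algebra.adjoin ℚ (Set.range v) ≃+* Algebra.adjoin ℚ (Set.range v) :=
    ((hvb.1.aevalEquiv.symm.trans (renameEquiv ℚ τ)).trans hvb.1.aevalEquiv).toRingEquiv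
  refine ⟨IsAlgClosure.equivOfEquiv ℂ ℂ e, ?_⟩
  intro i
  have h1 : t i = algebraMap (Algebra.adjoin ℚ (Set.range v)) ℂ (hvb.1.aevalEquiv (X (f i : s))) := by
    rw [hvb.1.algebraMap_aevalEquiv, aeval_X]
    rfl
  rw [h1, IsAlgClosure.equivOfEquiv_algebraMap]
  have h2 : e (hvb.1.aevalEquiv (X (f i : s))) = hvb.1.aevalEquiv (X (τ (f i : s))) := by
    change hvb.1.aevalEquiv (renameEquiv ℚ τ (hvb.1.aevalEquiv.symm
      (hvb.1.aevalEquiv (X (f i : s))))) = _
    rw [AlgEquiv.symm_apply_apply, renameEquiv_apply, rename_X]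
  rw [h2, hvb.1.algebraMap_aevalEquiv, aeval_X]
  exact hτ i

end Pool.Agent.Lib.MP_ed661f_ag.A
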