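import Pool.Agent.Lib.MP_ed661f_ag.E.Mlt
import Pool.Agent.Lib.MP_ed661f_ag.E.Bezout

/-!
Bezout's inequality for plane curves in terms of total degrees, and the inequality of Xu and
Ein-Lazarsfeld, by coefficientwise derivations (task A4).
-/

open MvPolynomial

namespace Pool.Agent.Lib.MP_ed661f_ag.A

open Pool.Agent.Lib.MP_ed661f_ag.E

theorem bezout_deg {f g : MvPolynomial (Fin 2) ℂ} (hf : f ≠ 0) (hg : g ≠ 0) (h : IsRelPrime f g)
    {n : ℕ} {p : Fin n → Fin 2 → ℂ} (hp : Function.Injective p) :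
    ∑ i, (mlt (p i) f : ℤ) * mlt (p i) g ≤ (f.totalDegree : ℤ) * g.totalDegree := by
  have h1 := bezout hf hg h (Finset.univ.image p)
  rw [Finset.sum_image (fun a _ b _ hab => hp hab)] at h1
  have h2 : (f.degreeOf 1 : ℤ) ≤ f.totalDegree := by exact_mod_cast degreeOf_le_totalDegree f 1
  have h3 : (g.degreeOf 1 : ℤ) ≤ g.totalDegree := by exact_mod_cast degreeOf_le_totalDegree g 1
  nlinarith [mul_nonneg (sub_nonneg.2 h2) (sub_nonneg.2 h3)]

namespace ELaux

/-- a derivation of `ℂ` applied to the coefficients -/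
noncomputable def Dt (D : Derivation ℚ ℂ ℂ) (f : MvPolynomial (Fin 2) ℂ) :
    MvPolynomial (Fin 2) ℂ :=
  ∑ e ∈ f.support, monomial e (D (coeff e f))

theorem coeff_Dt (D : Derivation ℚ ℂ ℂ) (f : MvPolynomial (Fin 2) ℂ) (e : Fin 2 →₀ ℕ) :
    coeff e (Dt D f) = D (coeff e f) := by
  classical
  unfold Dt
  rw [coeff_sum]
  simp only [coeff_monomial]
  rw [Finset.sum_ite_eq']
  split_ifs with h
  · rfl
  · rw [notMem_support_iff.1 h, map_zero]

theorem Dt_add (D : Derivation ℚ ℂ ℂ) (f g : MvPolynomial (Fin 2) ℂ) :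
    Dt D (f + g) = Dt D f + Dt D g := by
  ext e
  simp [coeff_Dt]

theorem Dt_C (D : Derivation ℚ ℂ ℂ) (a : ℂ) : Dt D (C a) = C (D a) := by
  classical
  ext e
  rw [coeff_Dt, coeff_C, coeff_C]
  split_ifs
  · rfl
  · exact map_zero _

theorem Dt_X (D : Derivation ℚ ℂ ℂ) (j : Fin 2) : Dt D (X j) = 0 := by
  classical
  ext e
  rw [coeff_Dt, coeff_X, coeff_zero]
  split_ifs
  · simp
  · exact map_zero _

theorem Dt_mul (D : Derivation ℚ ℂ ℂ) (f g : MvPolynomial (Fin 2) ℂ) :
    Dt D (f * g) = Dt D f * g + f * Dt D g := by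
  classical
  ext e
  rw [coeff_Dt, coeff_add, coeff_mul, coeff_mul, coeff_mul, map_sum, ← Finset.sum_add_distrib]
  refine Finset.sum_congr rfl fun x _ => ?_
  rw [Derivation.leibniz, coeff_Dt, coeff_Dt, smul_eq_mul, smul_eq_mul]
  ring

theorem tay_Dt (D : Derivation ℚ ℂ ℂ) (p : Fin 2 → ℂ) (f : MvPolynomial (Fin 2) ℂ) :
    tay p (Dt D f) = Dt D (tay p f) - ∑ c, C (D (p c)) * pderiv c (tay p f) := by
  induction f using MvPolynomial.induction_on with
  | C a => simp [tay, Dt_C, algebraMap_eq]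
  | add f g hf hg =>
    rw [Dt_add]
    simp only [tay, map_add] at hf hg ⊢
    rw [hf, hg, Dt_add]
    simp only [mul_add, Finset.sum_add_distrib]
    ring
  | mul_X f j hf =>
    rw [Dt_mul, Dt_X, mul_zero, add_zero]
    simp only [tay] at hf ⊢
    rw [map_mul, hf, map_mul, Dt_mul, aeval_X, Dt_add, Dt_X, Dt_C]
    simp only [Derivation.leibniz, smul_eq_mul, map_add, pderiv_C, add_zero, Fin.sum_univ_two]
    fin_cases j
    · simp
      ring
    · simp
      ring

theorem totalDegree_Dt_le (D : Derivation ℚ ℂ ℂ) (f : MvPolynomial (Fin 2) ℂ) :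
    (Dt D f).totalDegree ≤ f.totalDegree := by
  refine Finset.sup_mono ?_
  intro e he
  rw [mem_support_iff] at he ⊢
  rw [coeff_Dt] at he
  intro h
  rw [h, map_zero] at he
  exact he rfl

theorem mlt_C_mul {a : ℂ} (ha : a ≠ 0) (q : Fin 2 → ℂ) {f : MvPolynomial (Fin 2) ℂ}
    (hf : f ≠ 0) : mlt q (C a * f) = mlt q f := by
  rw [mlt_mul (by simpa using ha) hf, mlt_unit ((IsUnit.mk0 a ha).map C), zero_add]

theorem totalDegree_C_mul {a : ℂ} (ha : a ≠ 0) {f : MvPolynomial (Fin 2) ℂ} (hf : f ≠ 0) :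
    (C a * f).totalDegree = f.totalDegree := by
  rw [totalDegree_mul_of_isDomain (by simpa using ha) hf, totalDegree_C, zero_add]

/-- an irreducible polynomial one of whose coefficients is `1` does not divide its derivative -/
theorem not_dvd_Dt (D : Derivation ℚ ℂ ℂ) {f : MvPolynomial (Fin 2) ℂ} (hf : f ≠ 0)
    {e₀ : Fin 2 →₀ ℕ} (he : coeff e₀ f = 1) (h0 : Dt D f ≠ 0) : ¬ f ∣ Dt D f := by
  rintro ⟨q, hq⟩
  have hq0 : q ≠ 0 := by
    rintro rfl
    exact h0 (by rw [hq, mul_zero])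
  have h1 := totalDegree_Dt_le D f
  rw [hq, totalDegree_mul_of_isDomain hf hq0] at h1
  have h2 : q.totalDegree = 0 := by omega
  rw [totalDegree_eq_zero_iff_eq_C] at h2
  have h3 := coeff_Dt D f e₀
  rw [he, Derivation.map_one_eq_zero, hq, h2, mul_comm, coeff_C_mul, he, mul_one] at h3
  exact hq0 (by rw [h2, h3, map_zero])

theorem aux1 {a b : ℕ} (h : a ≤ b) : (a : ℤ) ^ 2 ≤ (a : ℤ) * b := by
  have h' : (a : ℤ) ≤ b := by exact_mod_cast h
  nlinarith [Int.natCast_nonneg a]

theorem aux2 {a b : ℕ} (h : a ≤ b + 1) : (a : ℤ) ^ 2 - a ≤ (a : ℤ) * b := by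
  have h' : (a : ℤ) ≤ b + 1 := by exact_mod_cast h
  nlinarith [Int.natCast_nonneg a]

theorem aux3 {a b : ℕ} (h : a ≤ b) : (b : ℤ) * a ≤ (b : ℤ) ^ 2 := by
  have h' : (a : ℤ) ≤ b := by exact_mod_cast h
  nlinarith [Int.natCast_nonneg b]

end ELaux

open ELaux

/-- the inequality of Xu and Ein-Lazarsfeld at the point `p i`; `D c` is a derivation moving only
the coordinate `c` of the point `p i` -/
theorem el {n : ℕ} {p : Fin n → Fin 2 → ℂ} (hp : Function.Injective p) (i : Fin n)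
    (D : Fin 2 → Derivation ℚ ℂ ℂ) (hD : ∀ c, D c (p i c) = 1)
    (hD' : ∀ c j c', (j, c') ≠ (i, c) → D c (p j c') = 0)
    {f : MvPolynomial (Fin 2) ℂ} (hf : Irreducible f) (hi : 1 ≤ mlt (p i) f) :
    ∑ j, (mlt (p j) f : ℤ) ^ 2 ≤ (f.totalDegree : ℤ) ^ 2 + mlt (p i) f := by
  classical
  -- scale so that a coefficient is 1
  wlog hone : ∃ e₀, coeff e₀ f = 1 generalizing f
  · obtain ⟨e₀, he₀⟩ := support_nonempty.mpr hf.ne_zero
    have ha : (coeff e₀ f)⁻¹ ≠ 0 := inv_ne_zero (mem_support_iff.1 he₀)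
    have hu : IsUnit (C (coeff e₀ f)⁻¹ : MvPolynomial (Fin 2) ℂ) := (IsUnit.mk0 _ ha).map C
    have hf' : Irreducible (C (coeff e₀ f)⁻¹ * f) := (irreducible_isUnit_mul hu).2 hf
    have := this hf' (by rwa [mlt_C_mul ha _ hf.ne_zero])
      ⟨e₀, by rw [coeff_C_mul]; exact inv_mul_cancel₀ (mem_support_iff.1 he₀)⟩
    rw [totalDegree_C_mul ha hf.ne_zero, mlt_C_mul ha _ hf.ne_zero] at this
    simpa only [mlt_C_mul ha _ hf.ne_zero] using this
  obtain ⟨e₀, he₀⟩ := hone
  have hf0 := hf.ne_zero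
  by_cases hz : ∃ c, Dt (D c) f ≠ 0
  · obtain ⟨c, hc⟩ := hz
    have hrel : IsRelPrime f (Dt (D c) f) :=
      (hf.isRelPrime_iff_not_dvd).2 (not_dvd_Dt (D c) hf0 he₀ hc)
    have h1 := bezout_deg hf0 hc hrel hp
    have h3 : ∀ j, j ≠ i → mlt (p j) f ≤ mlt (p j) (Dt (D c) f) := by
      intro j hj
      rw [le_mlt_iff hc]
      intro e he
      rw [tay_Dt]
      have h4 : ∀ c', D c (p j c') = 0 := fun c' => hD' c j c' (by
        intro h
        exact hj (congrArg Prod.fst h))
      simp only [h4, map_zero, zero_mul, Finset.sum_const_zero, sub_zero]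
      rw [coeff_Dt, (le_mlt_iff hf0 _).1 le_rfl e he, map_zero]
    have h4 : mlt (p i) f ≤ mlt (p i) (Dt (D c) f) + 1 := by
      have h5 : mlt (p i) f - 1 ≤ mlt (p i) (Dt (D c) f) := by
        rw [le_mlt_iff hc]
        intro e he
        rw [tay_Dt, coeff_sub, coeff_Dt, coeff_sum,
          (le_mlt_iff hf0 _).1 le_rfl e (by omega), map_zero, zero_sub, neg_eq_zero]
        refine Finset.sum_eq_zero fun c' _ => ?_
        rw [coeff_C_mul, coeff_pderiv, (le_mlt_iff hf0 _).1 le_rfl (e + Finsupp.single c' 1) (by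
          rw [map_add, Finsupp.degree_single]; omega), zero_mul, mul_zero]
      omega
    have h6 : ∑ j, (mlt (p j) f : ℤ) ^ 2 - mlt (p i) f ≤
        ∑ j, (mlt (p j) f : ℤ) * mlt (p j) (Dt (D c) f) := by
      rw [← Finset.add_sum_erase _ (fun j => (mlt (p j) f : ℤ) ^ 2) (Finset.mem_univ i),
        ← Finset.add_sum_erase _ (fun j => (mlt (p j) f : ℤ) * mlt (p j) (Dt (D c) f))
          (Finset.mem_univ i)]
      have h7 : ∑ j ∈ Finset.univ.erase i, (mlt (p j) f : ℤ) ^ 2 ≤
          ∑ j ∈ Finset.univ.erase i, (mlt (p j) f : ℤ) * mlt (p j) (Dt (D c) f) := by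
        refine Finset.sum_le_sum fun j hj => ?_
        exact aux1 (h3 j (Finset.ne_of_mem_erase hj))
      have h10 := aux2 h4
      linarith
    have h11 := aux3 (totalDegree_Dt_le (D c) f)
    linarith
  · push Not at hz
    exfalso
    have key : mlt (p i) f + 1 ≤ mlt (p i) f := by
      rw [le_mlt_iff hf0]
      intro E hE
      rcases Nat.lt_or_ge E.degree (mlt (p i) f) with h1 | h1
      · exact (le_mlt_iff hf0 _).1 le_rfl E h1
      have h2 : E.degree = mlt (p i) f := by omega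
      obtain ⟨c, hc⟩ : ∃ c, E c ≠ 0 := by
        by_contra h
        push Not at h
        have : E = 0 := Finsupp.ext h
        rw [this] at h2
        simp only [map_zero] at h2
        omega
      obtain ⟨e, rfl⟩ : ∃ e : Fin 2 →₀ ℕ, E = e + Finsupp.single c 1 := by
        refine ⟨E - Finsupp.single c 1, ?_⟩
        rw [tsub_add_cancel_of_le]
        rw [Finsupp.single_le_iff]
        omega
      rw [map_add, Finsupp.degree_single] at h2
      have h3 := tay_Dt (D c) (p i) f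
      rw [hz c] at h3
      have h4 := congrArg (coeff e) h3
      rw [coeff_sub, coeff_Dt, coeff_sum, (le_mlt_iff hf0 _).1 le_rfl e (by omega), map_zero,
        zero_sub] at h4
      have h5 : ∑ c', coeff e (C (D c (p i c')) * pderiv c' (tay (p i) f)) =
          coeff e (pderiv c (tay (p i) f)) := by
        rw [Finset.sum_eq_single c]
        · rw [hD, map_one, one_mul]
        · intro c' _ hc'
          rw [hD' c i c' (by intro h; exact hc' (congrArg Prod.snd h)), map_zero, zero_mul,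
            coeff_zero]
        · intro h
          exact absurd (Finset.mem_univ c) h
      rw [h5, coeff_pderiv] at h4
      have h6 : coeff e (tay (p i) (0 : MvPolynomial (Fin 2) ℂ)) = 0 := by simp [tay]
      rw [h6] at h4
      have h7 : coeff (e + Finsupp.single c 1) (tay (p i) f) * ((e c : ℂ) + 1) = 0 := by
        linear_combination h4
      rcases mul_eq_zero.1 h7 with h8 | h8
      · exact h8
      · exact absurd h8 (by exact_mod_cast Nat.succ_ne_zero (e c))
    omega

end Pool.Agent.Lib.MP_ed661f_ag.A
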