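import Pool.Agent.Lib.MP_ed661f_ag.E.Mlt
import Pool.Agent.Lib.MP_6b2d39_ag.FatSystem

/-!
Vanishing to order `m` implies membership in the `m`-th power of the maximal ideal (task A7a).
-/

open MvPolynomial

namespace Pool.Agent.Lib.MP_ed661f_ag.A

open Pool.Agent.Lib.MP_ed661f_ag.E Pool.Agent.Lib.MP_6b2d39_ag

private theorem fm_tay_inv (p : Fin 2 → ℂ) (f : MvPolynomial (Fin 2) ℂ) :
    aeval (fun i => X i + C (-p i)) (tay p f) = f := by
  have h : ((aeval (fun i => X i + C (-p i)) : MvPolynomial (Fin 2) ℂ →ₐ[ℂ] _).comp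
      (aeval (fun i => X i + C (p i)) : MvPolynomial (Fin 2) ℂ →ₐ[ℂ] _)) =
      AlgHom.id ℂ (MvPolynomial (Fin 2) ℂ) := by
    ext i
    simp
  exact congrArg (fun φ => φ f) h

private theorem fm_mem_pow {f : MvPolynomial (Fin 2) ℂ} (hf : f ≠ 0) (q : Fin 2 → ℂ) (m : ℕ)
    (hm : m ≤ mlt q f) : f ∈ (RingHom.ker (MvPolynomial.eval q)) ^ m := by
  have hX : ∀ j : Fin 2, (X j + C (-q j) : MvPolynomial (Fin 2) ℂ) ∈
      RingHom.ker (MvPolynomial.eval q) := by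
    intro j
    rw [RingHom.mem_ker]
    simp
  rw [← fm_tay_inv q f, aeval_def, eval₂_eq]
  refine Ideal.sum_mem _ fun e he => ?_
  refine Ideal.mul_mem_left _ _ ?_
  have h3 : m ≤ e.degree := by
    by_contra h
    push Not at h
    exact (mem_support_iff.1 he) ((le_mlt_iff (p := q) hf m).1 hm e h)
  have h5 : ∏ j ∈ e.support, (X j + C (-q j) : MvPolynomial (Fin 2) ℂ) ^ e j ∈
      (RingHom.ker (MvPolynomial.eval q)) ^ (∑ j ∈ e.support, e j) := by
    rw [← Finset.prod_pow_eq_pow_sum]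
    exact Ideal.prod_mem_prod fun j _ => Ideal.pow_mem_pow (hX j) _
  exact Ideal.pow_le_pow_right h3 h5

theorem mem_fatSystem {n d : ℕ} {m : Fin n → ℕ} {p : Fin n → Fin 2 → ℂ}
    {f : MvPolynomial (Fin 2) ℂ} (hf : f ≠ 0) (hd : f.totalDegree ≤ d)
    (hm : ∀ i, m i ≤ mlt (p i) f) : f ∈ fatSystem d m p := by
  refine ⟨(MvPolynomial.mem_restrictTotalDegree (Fin 2) d f).2 hd, ?_⟩
  rw [SetLike.mem_coe, Submodule.mem_iInf]
  intro i
  rw [Submodule.restrictScalars_mem]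
  exact fm_mem_pow hf (p i) (m i) (hm i)

end Pool.Agent.Lib.MP_ed661f_ag.A
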