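import Mathlib

open MvPolynomial

namespace Pool.Agent.Lib.MP_ed661f_ag.A

private theorem a3_fin (n : ℕ) : ∀ (Φ : ℕ → MvPolynomial (Fin n) ℂ), (∀ k, Φ k ≠ 0) →
    ∃ t : Fin n → ℂ, ∀ k, eval t (Φ k) ≠ 0 := by
  induction n with
  | zero =>
    intro Φ hΦ
    refine ⟨fun i => i.elim0, fun k h => hΦ k ?_⟩
    rw [MvPolynomial.eq_C_of_isEmpty (Φ k)] at h ⊢
    rw [eval_C] at h
    rw [h, C_0]
  | succ n ih =>
    intro Φ hΦ
    obtain ⟨t, ht⟩ := ih (fun k => (finSuccEquiv ℂ n (Φ k)).leadingCoeff) (fun k => by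
      rw [Ne, Polynomial.leadingCoeff_eq_zero]
      intro h
      exact hΦ k ((finSuccEquiv ℂ n).map_eq_zero_iff.mp h))
    have hne : ∀ k, (Polynomial.map (eval t) (finSuccEquiv ℂ n (Φ k))) ≠ 0 := by
      intro k h
      apply ht k
      have := congrArg (fun q => Polynomial.coeff q (finSuccEquiv ℂ n (Φ k)).natDegree) h
      simpa [Polynomial.coeff_map] using this
    have hc : (⋃ k, ((Polynomial.map (eval t) (finSuccEquiv ℂ n (Φ k))).rootSet ℂ)).Countable :=
      Set.countable_iUnion fun k => (Polynomial.rootSet_finite _ _).countable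
    have hex : ∃ z : ℂ, z ∉ ⋃ k, ((Polynomial.map (eval t) (finSuccEquiv ℂ n (Φ k))).rootSet ℂ) := by
      by_contra hcon
      push Not at hcon
      have : (Set.univ : Set ℂ).Countable := hc.mono fun z _ => hcon z
      exact not_countable_complex this
    obtain ⟨z, hz⟩ := hex
    refine ⟨Fin.cons z t, fun k h => hz ?_⟩
    rw [Set.mem_iUnion]
    refine ⟨k, ?_⟩
    rw [Polynomial.mem_rootSet]
    refine ⟨hne k, ?_⟩
    rw [← h, MvPolynomial.eval_eq_eval_mv_eval']
    simp [Polynomial.aeval_def, Polynomial.eval₂_eq_eval_map]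

/-- very general points -/
theorem exists_general {ι : Type} [Finite ι] (Φ : ℕ → MvPolynomial ι ℂ) (hΦ : ∀ k, Φ k ≠ 0) :
    ∃ t : ι → ℂ, AlgebraicIndependent ℚ t ∧ ∀ k, eval t (Φ k) ≠ 0 := by
  classical
  obtain ⟨n, ⟨e⟩⟩ := Finite.exists_equiv_fin ι
  have hct : Countable (MvPolynomial ι ℚ) := by
    have h1 : Countable ι := Finite.to_countable
    rw [← Cardinal.mk_le_aleph0_iff] at h1 ⊢
    refine (MvPolynomial.cardinalMk_le_max_lift (σ := ι) (R := ℚ)).trans ?_
    simp
  obtain ⟨Ψ, hΨ⟩ := exists_surjective_nat (MvPolynomial ι ℚ)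
  -- the combined family
  let Q : ℕ → MvPolynomial ι ℂ := fun k => if Ψ k = 0 then 1 else map (algebraMap ℚ ℂ) (Ψ k)
  have hQ : ∀ k, Q k ≠ 0 := by
    intro k
    by_cases h : Ψ k = 0
    · simp [Q, h]
    · simp only [Q, h, if_false]
      intro h0
      exact h (map_injective _ (algebraMap ℚ ℂ).injective (by rw [h0, map_zero]))
  let P : ℕ → MvPolynomial (Fin n) ℂ := fun k =>
    if k % 2 = 0 then rename e (Φ (k / 2)) else rename e (Q (k / 2))
  have hP : ∀ k, P k ≠ 0 := by
    intro k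
    by_cases h : k % 2 = 0
    · simp only [P, h, if_true]
      intro h0
      exact hΦ _ (rename_injective e e.injective (by rw [h0, map_zero]))
    · simp only [P, h, if_false]
      intro h0
      exact hQ _ (rename_injective e e.injective (by rw [h0, map_zero]))
  obtain ⟨t, ht⟩ := a3_fin n P hP
  refine ⟨t ∘ e, ?_, ?_⟩
  · rw [algebraicIndependent_iff]
    intro p hp
    obtain ⟨k, hk⟩ := hΨ p
    by_contra hne
    have h1 := ht (2 * k + 1)
    have h2 : (2 * k + 1) % 2 ≠ 0 := by omega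
    have h3 : (2 * k + 1) / 2 = k := by omega
    simp only [P, h2, if_false, h3, Q, hk, hne, eval_rename] at h1
    apply h1
    rw [eval_map, ← aeval_def]
    exact hp
  · intro k
    have h1 := ht (2 * k)
    have h2 : (2 * k) % 2 = 0 := by omega
    have h3 : (2 * k) / 2 = k := by omega
    simpa only [P, h2, if_true, h3, eval_rename] using h1

end Pool.Agent.Lib.MP_ed661f_ag.A
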