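import Mathlib

/-!
# A6: elementary combinatorics of integer vectors
-/

set_option autoImplicit false

namespace Pool.Agent.Lib.MP_ed661f_ag.A

/-- if no value is taken at least `n - 1` times -/
theorem sum_sq_of_pairs {n : ℕ} (a : Fin n → ℤ) (e : ℤ)
    (h : ∀ i j, a i ≠ a j → ∑ l, a l ^ 2 ≤ e + (a i - a j) ^ 2)
    (hne : ∀ i, ∃ j k, j ≠ k ∧ a j ≠ a i ∧ a k ≠ a i) :
    (∑ l, a l) ^ 2 ≤ n * e := by
  classical
  rcases Nat.eq_zero_or_pos n with hn | hn
  · subst hn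
    simp
  -- the pair with the least difference
  set S : Finset (Fin n × Fin n) := Finset.univ.filter fun q => a q.1 ≠ a q.2 with hS
  have hSne : S.Nonempty := by
    obtain ⟨j, k, _, hj, _⟩ := hne ⟨0, hn⟩
    exact ⟨(j, ⟨0, hn⟩), by simpa [hS] using hj⟩
  obtain ⟨q, hq, hmin⟩ := S.exists_min_image (fun q => (a q.1 - a q.2) ^ 2) hSne
  set G : ℤ := (a q.1 - a q.2) ^ 2 with hG
  have hle : ∑ l, a l ^ 2 ≤ e + G := h q.1 q.2 (by simpa [hS] using hq)
  have hpair : ∀ i j, a j ≠ a i → G ≤ (a i - a j) ^ 2 := by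
    intro i j hij
    exact hmin (i, j) (by simpa [hS] using hij.symm)
  have hrow : ∀ i, 2 * G ≤ ∑ j, (a i - a j) ^ 2 := by
    intro i
    obtain ⟨j, k, hjk, hj, hk⟩ := hne i
    have h1 : ∑ l ∈ ({j, k} : Finset (Fin n)), (a i - a l) ^ 2 ≤ ∑ l, (a i - a l) ^ 2 :=
      Finset.sum_le_sum_of_subset_of_nonneg (Finset.subset_univ _) fun _ _ _ => sq_nonneg _
    rw [Finset.sum_pair hjk] at h1
    have h2 := hpair i j hj
    have h3 := hpair i k hk
    linarith
  have htot : ∑ i, ∑ j, (a i - a j) ^ 2 = 2 * (n * ∑ l, a l ^ 2) - 2 * (∑ l, a l) ^ 2 := by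
    have h1 : ∀ i, ∑ j, (a i - a j) ^ 2
        = n * a i ^ 2 + ∑ l, a l ^ 2 - 2 * (a i * ∑ l, a l) := by
      intro i
      have : ∀ j, (a i - a j) ^ 2 = a i ^ 2 + a j ^ 2 - 2 * (a i * a j) := fun j => by ring
      simp only [this, Finset.sum_sub_distrib, Finset.sum_add_distrib, Finset.sum_const,
        Finset.card_univ, Fintype.card_fin, nsmul_eq_mul, ← Finset.mul_sum]
    simp only [h1, Finset.sum_sub_distrib, Finset.sum_add_distrib, Finset.sum_const,
      Finset.card_univ, Fintype.card_fin, nsmul_eq_mul, ← Finset.mul_sum, ← Finset.sum_mul]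
    ring
  have hlow : (n : ℤ) * (2 * G) ≤ ∑ i, ∑ j, (a i - a j) ^ 2 := by
    calc (n : ℤ) * (2 * G) = ∑ _i : Fin n, 2 * G := by
          simp
      _ ≤ _ := Finset.sum_le_sum fun i _ => hrow i
  have hn0 : (0 : ℤ) ≤ n := by positivity
  have h5 : (n : ℤ) * ∑ l, a l ^ 2 ≤ n * (e + G) := mul_le_mul_of_nonneg_left hle hn0
  rw [htot] at hlow
  nlinarith

/-- the sum of an almost constant vector -/
theorem sum_almost {n : ℕ} (a : Fin n → ℤ) (i₀ : Fin n) (b : ℤ) (h : ∀ i, i ≠ i₀ → a i = b) :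
    ∑ l, a l = n * b + (a i₀ - b) ∧
      ∑ l, a l ^ 2 = n * b ^ 2 + 2 * b * (a i₀ - b) + (a i₀ - b) ^ 2 := by
  classical
  have h1 : ∀ l, a l = b + if l = i₀ then a i₀ - b else 0 := by
    intro l
    by_cases hl : l = i₀
    · subst hl
      simp
    · rw [h l hl, if_neg hl, add_zero]
  have h2 : ∀ l, a l ^ 2 = b ^ 2 + if l = i₀ then a i₀ ^ 2 - b ^ 2 else 0 := by
    intro l
    by_cases hl : l = i₀
    · subst hl
      simp
    · rw [h l hl, if_neg hl, add_zero]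
  constructor
  · rw [Finset.sum_congr rfl fun l _ => h1 l, Finset.sum_add_distrib, Finset.sum_ite_eq']
    simp
  · rw [Finset.sum_congr rfl fun l _ => h2 l, Finset.sum_add_distrib, Finset.sum_ite_eq']
    simp
    ring

end Pool.Agent.Lib.MP_ed661f_ag.A
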