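import Pool.Agent.Lib.MP_ed661f_ag.E.Mlt

/-!
Seshadri constants of the line class of the projective plane, and the passage from affine to
projective plane curves (task A8b).
-/

open MvPolynomial

namespace Pool.Agent.Lib.MP_ed661f_ag.A

open Pool.Agent.Lib.MP_ed661f_ag.E

/-- Order of vanishing of a polynomial in three variables at a vector. For a form and a nonzero
vector it is the multiplicity of the plane curve at the point with these homogeneous
coordinates. -/
noncomputable def vecMult (F : MvPolynomial (Fin 3) ℂ) (v : Fin 3 → ℂ) : ℕ :=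
  sInf {k : ℕ | homogeneousComponent k (aeval (fun i => X i + C (v i)) F) ≠ 0}

/-- the multiplicity of the plane curve `F = 0` at a point of the projective plane -/
noncomputable def ptMult (F : MvPolynomial (Fin 3) ℂ) (x : Projectivization ℂ (Fin 3 → ℂ)) : ℕ :=
  vecMult F x.rep

/-- the Seshadri constant of the line class at the points `x i`: the infimum of
`deg F / ∑ ptMult F (x i)` over all plane curves `F = 0` through at least one `x i` -/
noncomputable def seshadri {n : ℕ} (x : Fin n → Projectivization ℂ (Fin 3 → ℂ)) : ℝ :=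
  sInf {r : ℝ | ∃ (d : ℕ) (F : MvPolynomial (Fin 3) ℂ), F ≠ 0 ∧ F.IsHomogeneous d ∧
    0 < ∑ i, ptMult F (x i) ∧ r = (d : ℝ) / ((∑ i, ptMult F (x i) : ℕ) : ℝ)}

/-- the `n`-point Seshadri constant of the line class: the supremum over all `n`-tuples of distinct
points -/
noncomputable def eps (n : ℕ) : ℝ :=
  sSup {r : ℝ | ∃ x : Fin n → Projectivization ℂ (Fin 3 → ℂ), Function.Injective x ∧
    r = seshadri x}

/-! ### Taylor expansions in three variables -/

/-- Taylor expansion at a vector -/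
private noncomputable def tv (v : Fin 3 → ℂ) (F : MvPolynomial (Fin 3) ℂ) :
    MvPolynomial (Fin 3) ℂ :=
  aeval (fun i => X i + C (v i)) F

private theorem tv_inv (v : Fin 3 → ℂ) (F : MvPolynomial (Fin 3) ℂ) :
    aeval (fun i => X i + C (-v i)) (tv v F) = F := by
  have h : ((aeval (fun i => X i + C (-v i)) : MvPolynomial (Fin 3) ℂ →ₐ[ℂ] _).comp
      (aeval (fun i => X i + C (v i)) : MvPolynomial (Fin 3) ℂ →ₐ[ℂ] _)) =
      AlgHom.id ℂ (MvPolynomial (Fin 3) ℂ) := by
    ext i
    simp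
  exact congrArg (fun φ => φ F) h

private theorem tv_ne_zero {v : Fin 3 → ℂ} {F : MvPolynomial (Fin 3) ℂ} (hF : F ≠ 0) :
    tv v F ≠ 0 := by
  intro h
  have := tv_inv v F
  rw [h, map_zero] at this
  exact hF this.symm

private theorem exists_comp_ne_zero {G : MvPolynomial (Fin 3) ℂ} (hG : G ≠ 0) :
    {k : ℕ | homogeneousComponent k G ≠ 0}.Nonempty := by
  by_contra h
  rw [Set.not_nonempty_iff_eq_empty] at h
  apply hG
  rw [← sum_homogeneousComponent G]
  refine Finset.sum_eq_zero fun k _ => ?_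
  by_contra hk
  have : k ∈ {k : ℕ | homogeneousComponent k G ≠ 0} := hk
  rw [h] at this
  exact this

private theorem comp_eq_zero {F : MvPolynomial (Fin 3) ℂ} {v : Fin 3 → ℂ} {k : ℕ}
    (hk : k < vecMult F v) : homogeneousComponent k (tv v F) = 0 := by
  by_contra h
  exact Nat.notMem_of_lt_sInf hk h

/-- `G (a X)` -/
private noncomputable def dil (a : ℂ) (G : MvPolynomial (Fin 3) ℂ) : MvPolynomial (Fin 3) ℂ :=
  aeval (fun i => C a * X i) G

private theorem dil_of_isHomogeneous {a : ℂ} {G : MvPolynomial (Fin 3) ℂ} {k : ℕ}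
    (hG : G.IsHomogeneous k) : dil a G = C (a ^ k) * G := by
  conv_rhs => rw [G.as_sum, Finset.mul_sum]
  unfold dil
  rw [aeval_def, eval₂_eq]
  refine Finset.sum_congr rfl fun e he => ?_
  have hdeg : ∑ i ∈ e.support, e i = k := by
    have := hG (mem_support_iff.1 he)
    rw [← this, Finsupp.weight_apply]
    simp [Finsupp.sum]
  simp_rw [mul_pow]
  rw [Finset.prod_mul_distrib, monomial_eq]
  have h1 : ∏ i ∈ e.support, (C a : MvPolynomial (Fin 3) ℂ) ^ e i = C (a ^ k) := by
    rw [Finset.prod_pow_eq_pow_sum, hdeg, map_pow]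
  rw [h1, Finsupp.prod]
  simp only [algebraMap_eq]
  ring

private theorem homogeneousComponent_dil (a : ℂ) (G : MvPolynomial (Fin 3) ℂ) (k : ℕ) :
    homogeneousComponent k (dil a G) = C (a ^ k) * homogeneousComponent k G := by
  have h1 : dil a G = ∑ i ∈ Finset.range (G.totalDegree + 1),
      C (a ^ i) * homogeneousComponent i G := by
    conv_lhs => rw [← sum_homogeneousComponent G]
    unfold dil
    rw [map_sum]
    exact Finset.sum_congr rfl fun i _ =>
      dil_of_isHomogeneous (homogeneousComponent_isHomogeneous i G)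
  rw [h1, map_sum]
  have h2 : ∀ i, homogeneousComponent k (C (a ^ i) * homogeneousComponent i G) =
      if i = k then C (a ^ i) * homogeneousComponent i G else 0 := by
    intro i
    rw [homogeneousComponent_C_mul, homogeneousComponent_of_mem
      (homogeneousComponent_mem i G)]
    split_ifs with h h' h'
    · rfl
    · exact absurd h.symm h'
    · exact absurd h'.symm h
    · simp
  simp_rw [h2]
  rw [Finset.sum_ite_eq']
  split_ifs with h
  · rfl
  · rw [homogeneousComponent_eq_zero, mul_zero]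
    simpa using h

private theorem dil_tv {F : MvPolynomial (Fin 3) ℂ} {d : ℕ} (hF : F.IsHomogeneous d)
    (v : Fin 3 → ℂ) (a : ℂ) : dil a (tv (a • v) F) = C (a ^ d) * tv v F := by
  have h1 : dil a (tv (a • v) F) = tv v (dil a F) := by
    have h : ((aeval (fun i => C a * X i) : MvPolynomial (Fin 3) ℂ →ₐ[ℂ] _).comp
        (aeval (fun i => X i + C ((a • v) i)) : MvPolynomial (Fin 3) ℂ →ₐ[ℂ] _)) =
        ((aeval (fun i => X i + C (v i)) : MvPolynomial (Fin 3) ℂ →ₐ[ℂ] _).comp
        (aeval (fun i => C a * X i) : MvPolynomial (Fin 3) ℂ →ₐ[ℂ] _)) := by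
      ext i
      simp [mul_add]
    exact congrArg (fun φ => φ F) h
  rw [h1, dil_of_isHomogeneous hF]
  simp [tv]

private theorem vecMult_smul {F : MvPolynomial (Fin 3) ℂ} {d : ℕ} (hF : F.IsHomogeneous d)
    (v : Fin 3 → ℂ) {a : ℂ} (ha : a ≠ 0) : vecMult F (a • v) = vecMult F v := by
  unfold vecMult
  congr 1
  ext k
  have h1 := congrArg (homogeneousComponent k) (dil_tv hF v a)
  rw [homogeneousComponent_dil, homogeneousComponent_C_mul] at h1
  have h2 : (C (a ^ k) : MvPolynomial (Fin 3) ℂ) ≠ 0 := by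
    simpa using fun h => absurd h ha
  have h3 : (C (a ^ d) : MvPolynomial (Fin 3) ℂ) ≠ 0 := by
    simpa using fun h => absurd h ha
  have h4 : homogeneousComponent k (tv (a • v) F) = 0 ↔ homogeneousComponent k (tv v F) = 0 := by
    constructor
    · intro h
      rw [h, mul_zero] at h1
      exact (mul_eq_zero.1 h1.symm).resolve_left h3
    · intro h
      rw [h, mul_zero] at h1
      exact (mul_eq_zero.1 h1).resolve_left h2
  exact not_congr h4

private theorem one_le_vecMult {F : MvPolynomial (Fin 3) ℂ} (hF : F ≠ 0) {v : Fin 3 → ℂ}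
    (hv : eval v F = 0) : 1 ≤ vecMult F v := by
  have h1 : vecMult F v ∈ {k : ℕ | homogeneousComponent k (tv v F) ≠ 0} :=
    Nat.sInf_mem (exists_comp_ne_zero (tv_ne_zero hF))
  by_contra h
  have h2 : vecMult F v = 0 := by omega
  rw [h2] at h1
  apply h1
  rw [homogeneousComponent_zero]
  have h3 : coeff 0 (tv v F) = eval v F := by
    have h : (constantCoeff.comp ((aeval (fun i => X i + C (v i)) :
        MvPolynomial (Fin 3) ℂ →ₐ[ℂ] MvPolynomial (Fin 3) ℂ)).toRingHom) = eval v := by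
      ext i <;> simp
    exact congrArg (fun φ => φ F) h
  rw [h3, hv, map_zero]

/-! ### A line through a given point -/

private theorem exists_line (v : Fin 3 → ℂ) : ∃ F : MvPolynomial (Fin 3) ℂ,
    F ≠ 0 ∧ F.IsHomogeneous 1 ∧ eval v F = 0 := by
  by_cases h : v 0 = 0
  · exact ⟨X 0, X_ne_zero 0, isHomogeneous_X ℂ 0, by simp [h]⟩
  · refine ⟨C (v 0) * X 1 - C (v 1) * X 0, ?_, ?_, ?_⟩
    · intro h1
      have h2 := congrArg (coeff (Finsupp.single 1 1)) h1
      have h3 : (Finsupp.single (0 : Fin 3) 1 : Fin 3 →₀ ℕ) ≠ Finsupp.single 1 1 := by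
        intro h4
        have := congrArg (fun e => e 0) h4
        simp at this
      rw [coeff_sub, coeff_C_mul, coeff_C_mul, coeff_X, coeff_X, if_pos rfl, if_neg h3] at h2
      simp at h2
      exact h h2
    · exact ((isHomogeneous_X ℂ 1).C_mul _).sub ((isHomogeneous_X ℂ 0).C_mul _)
    · simp
      ring

private theorem bddBelow_set {n : ℕ} (x : Fin n → Projectivization ℂ (Fin 3 → ℂ)) :
    BddBelow {r : ℝ | ∃ (d : ℕ) (F : MvPolynomial (Fin 3) ℂ), F ≠ 0 ∧ F.IsHomogeneous d ∧
    0 < ∑ i, ptMult F (x i) ∧ r = (d : ℝ) / ((∑ i, ptMult F (x i) : ℕ) : ℝ)} := by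
  refine ⟨0, ?_⟩
  rintro r ⟨d, F, -, -, -, rfl⟩
  positivity

private theorem exists_mem {n : ℕ} (hn : 1 ≤ n) (x : Fin n → Projectivization ℂ (Fin 3 → ℂ)) :
    ∃ r ≤ (1 : ℝ), r ∈ {r : ℝ | ∃ (d : ℕ) (F : MvPolynomial (Fin 3) ℂ), F ≠ 0 ∧
    F.IsHomogeneous d ∧ 0 < ∑ i, ptMult F (x i) ∧
    r = (d : ℝ) / ((∑ i, ptMult F (x i) : ℕ) : ℝ)} := by
  obtain ⟨F, hF, hF1, hF2⟩ := exists_line (x ⟨0, by omega⟩).rep
  have h1 : 1 ≤ ∑ i, ptMult F (x i) := by
    refine le_trans ?_ (Finset.single_le_sum (fun i _ => Nat.zero_le _)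
      (Finset.mem_univ (⟨0, by omega⟩ : Fin n)))
    exact one_le_vecMult hF hF2
  refine ⟨_, ?_, 1, F, hF, hF1, by omega, rfl⟩
  have h2 : (1 : ℝ) ≤ ((∑ i, ptMult F (x i) : ℕ) : ℝ) := by exact_mod_cast h1
  rw [div_le_one (by linarith)]
  simpa using h2

/-! ### Dehomogenisation -/

/-- `F (x, y, 1)` -/
private noncomputable def deh (F : MvPolynomial (Fin 3) ℂ) : MvPolynomial (Fin 2) ℂ :=
  aeval (![X 0, X 1, 1] : Fin 3 → MvPolynomial (Fin 2) ℂ) F

private theorem eval_deh (F : MvPolynomial (Fin 3) ℂ) (p : Fin 2 → ℂ) :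
    eval p (deh F) = eval ![p 0, p 1, 1] F := by
  have h : (eval p).comp ((aeval (![X 0, X 1, 1] : Fin 3 → MvPolynomial (Fin 2) ℂ) :
      MvPolynomial (Fin 3) ℂ →ₐ[ℂ] MvPolynomial (Fin 2) ℂ)).toRingHom =
      eval ![p 0, p 1, 1] := by
    ext i
    · simp
    · fin_cases i <;> simp
  exact congrArg (fun φ => φ F) h

private theorem deh_ne_zero {F : MvPolynomial (Fin 3) ℂ} {d : ℕ} (hF : F ≠ 0)
    (hd : F.IsHomogeneous d) : deh F ≠ 0 := by
  intro h
  have h1 : X 2 * F = 0 := by
    refine MvPolynomial.funext fun v => ?_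
    rw [map_mul, map_zero, eval_X]
    by_cases hv : v 2 = 0
    · rw [hv, zero_mul]
    · have h2 : eval v F = (v 2) ^ d * eval ![v 0 / v 2, v 1 / v 2, 1] F := by
        have h3 := congrArg (eval (![v 0 / v 2, v 1 / v 2, 1] : Fin 3 → ℂ))
          (dil_of_isHomogeneous (a := v 2) hd)
        rw [map_mul, eval_C] at h3
        rw [← h3]
        have h4 : (eval (![v 0 / v 2, v 1 / v 2, 1] : Fin 3 → ℂ)).comp
            ((aeval (fun i => C (v 2) * X i) : MvPolynomial (Fin 3) ℂ →ₐ[ℂ]
              MvPolynomial (Fin 3) ℂ)).toRingHom = eval v := by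
          refine MvPolynomial.ringHom_ext (fun a => by simp) fun i => ?_
          fin_cases i
          · simp; field_simp
          · simp; field_simp
          · simp
        exact (congrArg (fun φ => φ F) h4).symm
      rw [h2]
      have h3 := eval_deh F ![v 0 / v 2, v 1 / v 2]
      rw [h, map_zero] at h3
      simp only [Matrix.cons_val_zero, Matrix.cons_val_one] at h3
      rw [← h3]
      ring
  rcases mul_eq_zero.1 h1 with h2 | h2
  · exact X_ne_zero 2 h2
  · exact hF h2

private theorem totalDegree_deh {F : MvPolynomial (Fin 3) ℂ} {d : ℕ}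
    (hd : F.IsHomogeneous d) : (deh F).totalDegree ≤ d := by
  unfold deh
  rw [aeval_def, eval₂_eq]
  refine totalDegree_finsetSum_le fun e he => ?_
  have hdeg : ∑ i ∈ e.support, e i = d := by
    have := hd (mem_support_iff.1 he)
    rw [← this, Finsupp.weight_apply]
    simp [Finsupp.sum]
  refine (totalDegree_mul _ _).trans ?_
  rw [algebraMap_eq, totalDegree_C, zero_add, ← hdeg]
  refine (totalDegree_finsetProd _ _).trans (Finset.sum_le_sum fun i _ => ?_)
  refine (totalDegree_pow _ _).trans ?_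
  have h1 : ((![X 0, X 1, 1] : Fin 3 → MvPolynomial (Fin 2) ℂ) i).totalDegree ≤ 1 := by
    fin_cases i
    · simp
    · simp
    · simp
  calc e i * _ ≤ e i * 1 := Nat.mul_le_mul_left _ h1
    _ = e i := mul_one _

private theorem vecMult_le_mlt {F : MvPolynomial (Fin 3) ℂ} {d : ℕ} (hF : F ≠ 0)
    (hd : F.IsHomogeneous d) (p : Fin 2 → ℂ) : vecMult F ![p 0, p 1, 1] ≤ mlt p (deh F) := by
  rw [le_mlt_iff (deh_ne_zero hF hd)]
  intro e he
  set G := tv ![p 0, p 1, 1] F with hG
  have h1 : tay p (deh F) = aeval (![X 0, X 1, 0] : Fin 3 → MvPolynomial (Fin 2) ℂ) G := by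
    have h : ((aeval (fun i => X i + C (p i)) : MvPolynomial (Fin 2) ℂ →ₐ[ℂ] _).comp
        (aeval (![X 0, X 1, 1] : Fin 3 → MvPolynomial (Fin 2) ℂ) :
          MvPolynomial (Fin 3) ℂ →ₐ[ℂ] _)) =
        ((aeval (![X 0, X 1, 0] : Fin 3 → MvPolynomial (Fin 2) ℂ) :
          MvPolynomial (Fin 3) ℂ →ₐ[ℂ] _).comp
        (aeval (fun i => X i + C ((![p 0, p 1, 1] : Fin 3 → ℂ) i)) :
          MvPolynomial (Fin 3) ℂ →ₐ[ℂ] _)) := by
      refine MvPolynomial.algHom_ext fun i => ?_
      fin_cases i <;> simp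
    exact congrArg (fun φ => φ F) h
  rw [h1, ← sum_homogeneousComponent G, map_sum, coeff_sum]
  refine Finset.sum_eq_zero fun k _ => ?_
  by_cases hk : k < vecMult F ![p 0, p 1, 1]
  · rw [comp_eq_zero hk, map_zero, coeff_zero]
  · have h2 : (aeval (![X 0, X 1, 0] : Fin 3 → MvPolynomial (Fin 2) ℂ)
        (homogeneousComponent k G)).IsHomogeneous (1 * k) := by
      refine (homogeneousComponent_isHomogeneous k G).aeval _ fun i => ?_
      fin_cases i
      · exact isHomogeneous_X ℂ 0
      · exact isHomogeneous_X ℂ 1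
      · exact isHomogeneous_zero _ _ _
    refine h2.coeff_eq_zero ?_
    rw [one_mul]
    omega

/-! ### The result -/

private theorem vec_ne_zero (p : Fin 2 → ℂ) : (![p 0, p 1, 1] : Fin 3 → ℂ) ≠ 0 := by
  intro h
  have := congrFun h 2
  simp at this

private theorem ptMult_mk {F : MvPolynomial (Fin 3) ℂ} {d : ℕ} (hd : F.IsHomogeneous d)
    (v : Fin 3 → ℂ) (hv : v ≠ 0) : ptMult F (Projectivization.mk ℂ v hv) = vecMult F v := by
  obtain ⟨a, ha⟩ := Projectivization.exists_smul_eq_mk_rep ℂ v hv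
  unfold ptMult
  rw [← ha]
  exact vecMult_smul hd v a.ne_zero

/-- from affine to projective -/
theorem le_eps {n : ℕ} (hn : 1 ≤ n) {p : Fin n → Fin 2 → ℂ} (hp : Function.Injective p) {c : ℝ}
    (h : ∀ f : MvPolynomial (Fin 2) ℂ, f ≠ 0 →
      (∑ i, (mlt (p i) f : ℝ)) * c ≤ f.totalDegree) : c ≤ eps n := by
  set x : Fin n → Projectivization ℂ (Fin 3 → ℂ) := fun i =>
    Projectivization.mk ℂ ![p i 0, p i 1, 1] (vec_ne_zero (p i)) with hx
  have hxi : Function.Injective x := by
    intro i j hij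
    obtain ⟨a, ha⟩ := (Projectivization.mk_eq_mk_iff' ℂ _ _ (vec_ne_zero (p i))
      (vec_ne_zero (p j))).1 hij
    have h2 := congrFun ha 2
    have h0 := congrFun ha 0
    have h1 := congrFun ha 1
    simp at h0 h1 h2
    subst h2
    apply hp
    ext c
    fin_cases c
    · simpa using h0.symm
    · simpa using h1.symm
  have h1 : c ≤ seshadri x := by
    refine le_csInf ?_ ?_
    · obtain ⟨r, -, hr⟩ := exists_mem hn x
      exact ⟨r, hr⟩
    · rintro r ⟨d, F, hF, hd, hpos, rfl⟩
      have hpos' : (0 : ℝ) < ((∑ i, ptMult F (x i) : ℕ) : ℝ) := by exact_mod_cast hpos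
      rw [le_div_iff₀ hpos']
      rcases le_or_gt c 0 with hc | hc
      · exact (mul_nonpos_of_nonpos_of_nonneg hc hpos'.le).trans (by positivity)
      · have h2 : ((∑ i, ptMult F (x i) : ℕ) : ℝ) ≤ ∑ i, (mlt (p i) (deh F) : ℝ) := by
          push_cast
          refine Finset.sum_le_sum fun i _ => ?_
          have h3 : ptMult F (x i) ≤ mlt (p i) (deh F) := by
            rw [hx, ptMult_mk hd]
            exact vecMult_le_mlt hF hd (p i)
          exact_mod_cast h3
        calc c * ((∑ i, ptMult F (x i) : ℕ) : ℝ) = ((∑ i, ptMult F (x i) : ℕ) : ℝ) * c := by ring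
          _ ≤ (∑ i, (mlt (p i) (deh F) : ℝ)) * c := by gcongr
          _ ≤ (deh F).totalDegree := h _ (deh_ne_zero hF hd)
          _ ≤ d := by exact_mod_cast totalDegree_deh hd
  refine h1.trans (le_csSup ?_ ⟨x, hxi, rfl⟩)
  refine ⟨1, ?_⟩
  rintro r ⟨y, -, rfl⟩
  obtain ⟨r, hr, hr'⟩ := exists_mem hn y
  exact (csInf_le (bddBelow_set y) hr').trans hr

end Pool.Agent.Lib.MP_ed661f_ag.A
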