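import Pool.Agent.Lib.MP_ed661f_ag.E.Mlt
import Pool.Agent.Lib.MP_ed661f_ag.E.Bezout

/-!
A curve and its image under an automorphism of the complex numbers exchanging two points (task A5).
-/

open MvPolynomial

namespace Pool.Agent.Lib.MP_ed661f_ag.A

open Pool.Agent.Lib.MP_ed661f_ag.E

private theorem sw_bezout_deg {f g : MvPolynomial (Fin 2) ℂ} (hf : f ≠ 0) (hg : g ≠ 0)
    (h : IsRelPrime f g) {n : ℕ} {p : Fin n → Fin 2 → ℂ} (hp : Function.Injective p) :
    ∑ i, (mlt (p i) f : ℤ) * mlt (p i) g ≤ (f.totalDegree : ℤ) * g.totalDegree := by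
  classical
  have h1 := bezout hf hg h (Finset.univ.image p)
  rw [Finset.sum_image (fun a _ b _ hab => hp hab)] at h1
  refine h1.trans ?_
  have h2 : (f.degreeOf 1 : ℤ) ≤ f.totalDegree := by
    exact_mod_cast degreeOf_le_totalDegree f 1
  have h3 : (g.degreeOf 1 : ℤ) ≤ g.totalDegree := by
    exact_mod_cast degreeOf_le_totalDegree g 1
  nlinarith [mul_nonneg (sub_nonneg.2 h2) (sub_nonneg.2 h3)]

private theorem sw_map_tay (φ : ℂ ≃+* ℂ) (p : Fin 2 → ℂ) (f : MvPolynomial (Fin 2) ℂ) :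
    map (φ : ℂ →+* ℂ) (tay p f) = tay (fun c => φ (p c)) (map (φ : ℂ →+* ℂ) f) := by
  induction f using MvPolynomial.induction_on with
  | C a => simp [tay]
  | add f g hf hg =>
    simp only [tay, map_add] at hf hg ⊢
    rw [hf, hg]
  | mul_X f j hf =>
    simp only [tay] at hf ⊢
    simp only [map_mul, map_X, aeval_X, map_add, map_C] at hf ⊢
    rw [hf]
    rfl

private theorem sw_map_ne {φ : ℂ ≃+* ℂ} {f : MvPolynomial (Fin 2) ℂ} (hf : f ≠ 0) :
    map (φ : ℂ →+* ℂ) f ≠ 0 := by
  intro h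
  exact hf (map_injective _ φ.injective (by rw [h, map_zero]))

private theorem sw_mlt (φ : ℂ ≃+* ℂ) (p : Fin 2 → ℂ) {f : MvPolynomial (Fin 2) ℂ} (hf : f ≠ 0) :
    mlt (fun c => φ (p c)) (map (φ : ℂ →+* ℂ) f) = mlt p f := by
  have key : ∀ m, m ≤ mlt (fun c => φ (p c)) (map (φ : ℂ →+* ℂ) f) ↔ m ≤ mlt p f := by
    intro m
    rw [le_mlt_iff (sw_map_ne hf), le_mlt_iff hf]
    refine forall_congr' fun e => forall_congr' fun _ => ?_
    rw [← sw_map_tay, coeff_map]
    constructor
    · intro h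
      exact φ.injective (by simpa using h)
    · intro h
      rw [h]; simp
  exact le_antisymm ((key _).1 le_rfl) ((key _).2 le_rfl)

private theorem sw_deg (φ : ℂ ≃+* ℂ) (f : MvPolynomial (Fin 2) ℂ) :
    (map (φ : ℂ →+* ℂ) f).totalDegree = f.totalDegree := by
  unfold totalDegree
  rw [support_map_of_injective f φ.injective]

/-- an irreducible curve and its image under an automorphism of `ℂ` exchanging two points -/
theorem swap_ineq {n : ℕ} {p : Fin n → Fin 2 → ℂ} (hp : Function.Injective p) {i j : Fin n}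
    (φ : ℂ ≃+* ℂ) (hφ : ∀ l c, φ (p l c) = p (Equiv.swap i j l) c)
    {f : MvPolynomial (Fin 2) ℂ} (hf : Irreducible f) (hij : mlt (p i) f ≠ mlt (p j) f) :
    ∑ l, (mlt (p l) f : ℤ) ^ 2 ≤
      (f.totalDegree : ℤ) ^ 2 + ((mlt (p i) f : ℤ) - mlt (p j) f) ^ 2 := by
  set g : MvPolynomial (Fin 2) ℂ := map (φ : ℂ →+* ℂ) f with hg
  have hf0 := hf.ne_zero
  have hg0 : g ≠ 0 := sw_map_ne hf0
  have hm : ∀ l, mlt (p (Equiv.swap i j l)) g = mlt (p l) f := by
    intro l
    rw [← sw_mlt φ (p l) hf0]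
    congr 1
    funext c
    exact (hφ l c).symm
  have hgirr : Irreducible g := by
    have h1 := (MulEquiv.irreducible_iff (mapEquiv (Fin 2) φ) (x := f)).2 hf
    exact h1
  have hrel : IsRelPrime f g := by
    rw [hf.isRelPrime_iff_not_dvd]
    rintro ⟨u, hu⟩
    have hu' : IsUnit u := by
      rcases hgirr.isUnit_or_isUnit hu with h | h
      · exact absurd h hf.not_isUnit
      · exact h
    have h2 : ∀ q, mlt q g = mlt q f := by
      intro q
      rw [hu, mlt_mul hf0 hu'.ne_zero, mlt_unit hu', add_zero]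
    have h3 := hm i
    rw [Equiv.swap_apply_left, h2] at h3
    exact hij h3.symm
  have hb := sw_bezout_deg hf0 hg0 hrel hp
  rw [hg, sw_deg, ← hg] at hb
  have h4 : ∑ l, (mlt (p l) f : ℤ) * mlt (p l) g =
      ∑ l, (mlt (p l) f : ℤ) ^ 2 - ((mlt (p i) f : ℤ) - mlt (p j) f) ^ 2 := by
    have h5 : ∀ l, mlt (p l) g = mlt (p (Equiv.swap i j l)) f := by
      intro l
      have := hm (Equiv.swap i j l)
      rwa [Equiv.swap_apply_self] at this
    have hne : i ≠ j := by
      rintro rfl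
      exact hij rfl
    have h6 : ∀ l, (mlt (p l) f : ℤ) ^ 2 - (mlt (p l) f : ℤ) * mlt (p l) g =
        (if l = i then (mlt (p i) f : ℤ) * (mlt (p i) f - mlt (p j) f) else 0) +
          (if l = j then (mlt (p j) f : ℤ) * (mlt (p j) f - mlt (p i) f) else 0) := by
      intro l
      rw [h5 l]
      by_cases hl : l = i
      · subst hl
        rw [Equiv.swap_apply_left, if_pos rfl, if_neg hne]
        ring
      · by_cases hl' : l = j
        · subst hl'
          rw [Equiv.swap_apply_right, if_pos rfl, if_neg (Ne.symm hne)]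
          ring
        · rw [Equiv.swap_apply_of_ne_of_ne hl hl', if_neg hl, if_neg hl']
          ring
    have h7 := Finset.sum_congr rfl (fun l (_ : l ∈ Finset.univ) => h6 l)
    rw [Finset.sum_sub_distrib, Finset.sum_add_distrib] at h7
    simp only [Finset.sum_ite_eq', Finset.mem_univ, if_true] at h7
    linarith [h7, (by ring : (mlt (p i) f : ℤ) * (mlt (p i) f - mlt (p j) f) +
      (mlt (p j) f : ℤ) * (mlt (p j) f - mlt (p i) f) = ((mlt (p i) f : ℤ) - mlt (p j) f) ^ 2)]
  rw [h4] at hb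
  linarith [hb, (by ring : (f.totalDegree : ℤ) * f.totalDegree = (f.totalDegree : ℤ) ^ 2)]

end Pool.Agent.Lib.MP_ed661f_ag.A
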