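import Pool.Agent.Lib.MP_ed661f_ag.A.Der
import Pool.Agent.Lib.MP_ed661f_ag.A.Aut
import Pool.Agent.Lib.MP_ed661f_ag.A.General
import Pool.Agent.Lib.MP_ed661f_ag.A.EL
import Pool.Agent.Lib.MP_ed661f_ag.A.Swap
import Pool.Agent.Lib.MP_ed661f_ag.A.Pairs
import Pool.Agent.Lib.MP_ed661f_ag.A.FatMem
import Pool.Agent.Lib.MP_ed661f_ag.A.AllCurves
import Pool.Agent.Lib.MP_ed661f_ag.A.Seshadri

/-!
From the emptiness of uniform systems up to multiplicity `M` to a lower bound for the `n`-point
Seshadri constant of the line class of the projective plane.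
-/

open MvPolynomial

namespace Pool.Agent.Lib.MP_ed661f_ag.A

open Pool.Agent.Lib.MP_ed661f_ag.E Pool.Agent.Lib.MP_6b2d39_ag

/-- the system of degree `d` with multiplicities `m` is empty for general points -/
def Gen {n : ℕ} (d : ℕ) (m : Fin n → ℕ) : Prop :=
  ∃ Φ : MvPolynomial (Fin n × Fin 2) ℂ, Φ ≠ 0 ∧ ∀ p : Fin n → Fin 2 → ℂ,
    MvPolynomial.eval (fun q => p q.1 q.2) Φ ≠ 0 → fatSystem d m p = ⊥

/-- very general points -/
theorem exists_points (n : ℕ) :
    ∃ t : Fin n × Fin 2 → ℂ, AlgebraicIndependent ℚ t ∧ ∀ (d : ℕ) (m : Fin n → ℕ), Gen d m →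
      fatSystem d m (fun i c => t (i, c)) = ⊥ := by
  classical
  obtain ⟨u, hu⟩ := exists_surjective_nat (ℕ × (Fin n → ℕ))
  obtain ⟨t, ht, ht2⟩ := exists_general
    (fun k => if h : Gen (u k).1 (u k).2 then h.choose else (1 : MvPolynomial (Fin n × Fin 2) ℂ))
    (by
      intro k
      by_cases h : Gen (u k).1 (u k).2
      · simp only [h, dif_pos]
        exact h.choose_spec.1
      · simp only [h, dif_neg, not_false_eq_true]
        exact one_ne_zero)
  refine ⟨t, ht, ?_⟩
  intro d m h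
  obtain ⟨k, hk⟩ := hu (d, m)
  have h1 : Gen (u k).1 (u k).2 := by
    rw [hk]
    exact h
  have h2 := ht2 k
  simp only [h1, dif_pos] at h2
  have h3 := h1.choose_spec.2 (fun i c => t (i, c)) h2
  rw [hk] at h3
  exact h3

private theorem pa_map_tay (φ : ℂ ≃+* ℂ) (p : Fin 2 → ℂ) (f : MvPolynomial (Fin 2) ℂ) :
    map (φ : ℂ →+* ℂ) (tay p f) = tay (fun c => φ (p c)) (map (φ : ℂ →+* ℂ) f) := by
  induction f using MvPolynomial.induction_on with
  | C a => simp [tay]
  | add f g hf hg =>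
    simp only [tay, map_add] at hf hg ⊢
    rw [hf, hg]
  | mul_X f j hf =>
    simp only [tay] at hf ⊢
    simp only [map_mul, map_X, aeval_X, map_add, map_C] at hf ⊢
    rw [hf]
    rfl

private theorem pa_map_ne {φ : ℂ ≃+* ℂ} {f : MvPolynomial (Fin 2) ℂ} (hf : f ≠ 0) :
    map (φ : ℂ →+* ℂ) f ≠ 0 := by
  intro h
  exact hf (map_injective _ φ.injective (by rw [h, map_zero]))

private theorem pa_mlt (φ : ℂ ≃+* ℂ) (p : Fin 2 → ℂ) {f : MvPolynomial (Fin 2) ℂ} (hf : f ≠ 0) :
    mlt (fun c => φ (p c)) (map (φ : ℂ →+* ℂ) f) = mlt p f := by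
  have key : ∀ m, m ≤ mlt (fun c => φ (p c)) (map (φ : ℂ →+* ℂ) f) ↔ m ≤ mlt p f := by
    intro m
    rw [le_mlt_iff (pa_map_ne hf), le_mlt_iff hf]
    refine forall_congr' fun e => forall_congr' fun _ => ?_
    rw [← pa_map_tay, coeff_map]
    constructor
    · intro h
      exact φ.injective (by simpa using h)
    · intro h
      rw [h]; simp
  exact le_antisymm ((key _).1 le_rfl) ((key _).2 le_rfl)

private theorem pa_deg (φ : ℂ ≃+* ℂ) (f : MvPolynomial (Fin 2) ℂ) :
    (map (φ : ℂ →+* ℂ) f).totalDegree = f.totalDegree := by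
  unfold totalDegree
  rw [support_map_of_injective f φ.injective]

/-- multiplicity and degree of a product -/
theorem mlt_prod {ι : Type} (s : Finset ι) (f : ι → MvPolynomial (Fin 2) ℂ) (hf : ∀ i, f i ≠ 0)
    (q : Fin 2 → ℂ) : mlt q (∏ i ∈ s, f i) = ∑ i ∈ s, mlt q (f i) := by
  classical
  induction s using Finset.induction_on with
  | empty => simpa using mlt_unit (p := q) (f := (1 : MvPolynomial (Fin 2) ℂ)) isUnit_one
  | insert a s ha ih =>
    rw [Finset.prod_insert ha, Finset.sum_insert ha,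
      mlt_mul (hf a) (Finset.prod_ne_zero_iff.mpr fun i _ => hf i), ih]

/-- an almost uniform curve and its conjugates -/
theorem conj_bound {n : ℕ} {p : Fin n → Fin 2 → ℂ}
    (haut : ∀ i j : Fin n, ∃ φ : ℂ ≃+* ℂ, ∀ l c, φ (p l c) = p (Equiv.swap i j l) c)
    {f : MvPolynomial (Fin 2) ℂ} (hf : f ≠ 0) {i₀ : Fin n} {a b : ℕ} (h₀ : mlt (p i₀) f = a)
    (hb : ∀ i, i ≠ i₀ → mlt (p i) f = b)
    (hbot : fatSystem (n * f.totalDegree) (fun _ : Fin n => a + (n - 1) * b) p = ⊥) : False := by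
  classical
  choose φ hφ using haut i₀
  obtain ⟨F, hF⟩ : ∃ F : Fin n → MvPolynomial (Fin 2) ℂ, F = fun i => map (φ i : ℂ →+* ℂ) f :=
    ⟨_, rfl⟩
  have hF0 : ∀ i, F i ≠ 0 := fun i => by
    rw [hF]
    exact pa_map_ne hf
  have hm : ∀ i l, mlt (p (Equiv.swap i₀ i l)) (F i) = mlt (p l) f := by
    intro i l
    rw [← pa_mlt (φ i) (p l) hf, hF]
    congr 1
    funext c
    exact (hφ i l c).symm
  have hm' : ∀ i l, mlt (p l) (F i) = if l = i then a else b := by
    intro i l
    have h1 := hm i (Equiv.swap i₀ i l)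
    rw [Equiv.swap_apply_self] at h1
    rw [h1]
    by_cases hl : l = i
    · rw [if_pos hl, hl, Equiv.swap_apply_right, h₀]
    · rw [if_neg hl]
      refine hb _ ?_
      intro h2
      apply hl
      have h3 := congrArg (Equiv.swap i₀ i) h2
      rw [Equiv.swap_apply_self, Equiv.swap_apply_left] at h3
      exact h3
  have hmem : (∏ i, F i) ∈ fatSystem (n * f.totalDegree)
      (fun _ : Fin n => a + (n - 1) * b) p := by
    refine mem_fatSystem (Finset.prod_ne_zero_iff.mpr fun i _ => hF0 i) ?_ ?_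
    · refine (totalDegree_finset_prod _ _).trans ?_
      have h1 : ∀ i, (F i).totalDegree = f.totalDegree := fun i => by rw [hF]; exact pa_deg _ _
      simp only [h1, Finset.sum_const, Finset.card_univ, Fintype.card_fin, smul_eq_mul]
      exact le_rfl
    · intro l
      rw [mlt_prod _ _ hF0]
      simp only [hm']
      rw [← Finset.add_sum_erase _ _ (Finset.mem_univ l), if_pos rfl]
      have h1 : ∑ i ∈ Finset.univ.erase l, (if l = i then a else b) =
          ∑ i ∈ Finset.univ.erase l, b := by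
        refine Finset.sum_congr rfl fun i hi => ?_
        rw [if_neg (Finset.ne_of_mem_erase hi).symm]
      rw [h1, Finset.sum_const, Finset.card_erase_of_mem (Finset.mem_univ l), Finset.card_univ,
        Fintype.card_fin, smul_eq_mul]
  rw [hbot] at hmem
  exact (Finset.prod_ne_zero_iff.mpr fun i _ => hF0 i) (by simpa using hmem)

/-- numbers -/
theorem param_num {n d b S : ℕ} {M : ℕ} (hn : 3 ≤ n)
    (hS : (n - 1 : ℤ) * b ≤ S) (hSM : M + 1 ≤ S)
    (h : (S : ℤ) ^ 2 ≤ n * d ^ 2 + b) :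
    (S : ℝ) ^ 2 * (1 - 1 / (((n : ℝ) - 1) * (M + 1))) ≤ n * (d : ℝ) ^ 2 := by
  have hn' : (3 : ℝ) ≤ n := by exact_mod_cast hn
  have hS' : ((n : ℝ) - 1) * b ≤ S := by exact_mod_cast hS
  have hSM' : (M : ℝ) + 1 ≤ S := by exact_mod_cast hSM
  have h' : (S : ℝ) ^ 2 ≤ n * d ^ 2 + b := by exact_mod_cast h
  have hM0 : (0 : ℝ) < M + 1 := by positivity
  have h1 : (b : ℝ) ≤ (S : ℝ) ^ 2 * (1 / (((n : ℝ) - 1) * (M + 1))) := by
    rw [mul_one_div, le_div_iff₀ (by nlinarith)]
    have h2 : ((n : ℝ) - 1) * b * (M + 1) ≤ S * S :=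
      mul_le_mul hS' hSM' (by positivity) (by positivity)
    nlinarith
  nlinarith

/-- **irreducible curves through very general points** -/
theorem irreducible_bound {n M : ℕ} (hn : 3 ≤ n)
    (hM : ∀ m d : ℕ, 1 ≤ m → m ≤ M → d ^ 2 < n * m ^ 2 → Gen d (fun _ : Fin n => m)) :
    ∃ p : Fin n → Fin 2 → ℂ, Function.Injective p ∧
      ∀ f : MvPolynomial (Fin 2) ℂ, Irreducible f →
        (∑ i, (mlt (p i) f : ℝ)) ^ 2 * (1 - 1 / (((n : ℝ) - 1) * (M + 1))) ≤
          n * (f.totalDegree : ℝ) ^ 2 := by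
  classical
  obtain ⟨t, ht, hempty⟩ := exists_points n
  obtain ⟨p, hp⟩ : ∃ p : Fin n → Fin 2 → ℂ, p = fun i c => t (i, c) := ⟨_, rfl⟩
  rw [← hp] at hempty
  have hpt : ∀ i c, p i c = t (i, c) := fun i c => by rw [hp]
  have hinj : Function.Injective p := by
    intro i j hij
    have h1 : t (i, 0) = t (j, 0) := by
      rw [← hpt, ← hpt, hij]
    have h2 := ht.injective h1
    exact (Prod.mk.inj h2).1
  refine ⟨p, hinj, ?_⟩
  intro f hf
  have hEL : ∀ i, 1 ≤ mlt (p i) f →
      ∑ j, (mlt (p j) f : ℤ) ^ 2 ≤ (f.totalDegree : ℤ) ^ 2 + mlt (p i) f := by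
    intro i hi
    choose D hD hD' using fun c : Fin 2 => exists_der ht (i, c)
    refine el hinj i D (fun c => by rw [hpt]; exact hD c) ?_ hf hi
    intro c j c' h
    rw [hpt]
    exact hD' c _ h
  have haut : ∀ i j : Fin n, ∃ φ : ℂ ≃+* ℂ, ∀ l c, φ (p l c) = p (Equiv.swap i j l) c := by
    intro i j
    obtain ⟨φ, hφ⟩ := exists_aut ht ((Equiv.swap i j).prodCongr (Equiv.refl (Fin 2)))
    refine ⟨φ, fun l c => ?_⟩
    rw [hpt, hpt, hφ]
    rfl
  have hswap : ∀ i j, mlt (p i) f ≠ mlt (p j) f →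
      ∑ l, (mlt (p l) f : ℤ) ^ 2 ≤
        (f.totalDegree : ℤ) ^ 2 + ((mlt (p i) f : ℤ) - mlt (p j) f) ^ 2 := by
    intro i j hij
    obtain ⟨φ, hφ⟩ := haut i j
    exact swap_ineq hinj φ hφ hf hij
  obtain ⟨m, hm⟩ : ∃ m : Fin n → ℕ, m = fun i => mlt (p i) f := ⟨_, rfl⟩
  have hmi : ∀ i, mlt (p i) f = m i := fun i => by rw [hm]
  have hconj : ∀ (i₀ : Fin n) (b : ℕ), (∀ i, i ≠ i₀ → m i = b) →
      1 ≤ m i₀ + (n - 1) * b → m i₀ + (n - 1) * b ≤ M →
      (((m i₀ + (n - 1) * b : ℕ) : ℤ)) ^ 2 ≤ n * (f.totalDegree : ℤ) ^ 2 := by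
    intro i₀ b hb h1 h2
    by_contra hcon
    rw [not_le] at hcon
    refine conj_bound (a := m i₀) (b := b) haut hf.ne_zero (hmi i₀)
      (fun i hi => by rw [hmi, hb i hi]) (hempty _ _ (hM _ _ h1 h2 ?_))
    have hn0 : (0 : ℤ) < n := by
      have : 0 < n := by omega
      exact_mod_cast this
    have h3 : ((n : ℤ) * f.totalDegree) ^ 2 < n * ((m i₀ + (n - 1) * b : ℕ) : ℤ) ^ 2 := by
      nlinarith
    exact_mod_cast h3
  obtain ⟨d, hd⟩ : ∃ d, d = f.totalDegree := ⟨_, rfl⟩
  simp only [hmi] at hEL hswap ⊢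
  rw [← hd] at hEL hswap hconj ⊢
  have hn0 : 0 < n := by omega
  have hcast : (∑ i, (m i : ℝ)) = ((∑ i, (m i : ℤ) : ℤ) : ℝ) := by push_cast; rfl
  have hn3 : (3 : ℝ) ≤ n := by exact_mod_cast hn
  have key : ∀ x : ℝ, 0 ≤ x → x * (1 - 1 / (((n : ℝ) - 1) * (M + 1))) ≤ x := by
    intro x hx
    have h1 : 0 < ((n : ℝ) - 1) * (M + 1) := mul_pos (by linarith) (by positivity)
    have : 0 ≤ x * (1 / (((n : ℝ) - 1) * (M + 1))) := by positivity
    nlinarith
  by_cases hne : ∀ i, ∃ j k, j ≠ k ∧ (m j : ℤ) ≠ m i ∧ (m k : ℤ) ≠ m i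
  · have h1 := sum_sq_of_pairs (fun i => (m i : ℤ)) ((d : ℤ) ^ 2)
      (fun i j hij => hswap i j (fun h => hij (by simp [h]))) hne
    have h2 : ((∑ i, (m i : ℤ) : ℤ) : ℝ) ^ 2 ≤ n * (d : ℝ) ^ 2 := by exact_mod_cast h1
    rw [hcast]
    exact (key _ (by positivity)).trans h2
  · -- almost uniform
    obtain ⟨i₀, b, hb⟩ : ∃ (i₀ : Fin n) (b : ℕ), ∀ i, i ≠ i₀ → m i = b := by
      push Not at hne
      obtain ⟨i, hi⟩ := hne
      by_cases hall : ∀ j, m j = m i
      · exact ⟨⟨0, hn0⟩, m i, fun j _ => hall j⟩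
      · push Not at hall
        obtain ⟨j, hj⟩ := hall
        refine ⟨j, m i, fun k hk => ?_⟩
        have := hi j k (Ne.symm hk) (by exact_mod_cast hj)
        exact_mod_cast this
    obtain ⟨k, hk⟩ : ∃ k : ℤ, k = (m i₀ : ℤ) - b := ⟨_, rfl⟩
    obtain ⟨s1, s2⟩ := sum_almost (fun i => (m i : ℤ)) i₀ b (fun i hi => by simp [hb i hi])
    rw [← hk] at s1 s2
    obtain ⟨S, hS⟩ : ∃ S : ℕ, S = m i₀ + (n - 1) * b := ⟨_, rfl⟩
    have hSk : (S : ℤ) = n * b + k := by
      rw [hS, hk]
      push_cast [Nat.cast_sub (show 1 ≤ n by omega)]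
      ring
    rw [hcast, s1, ← hSk]
    obtain ⟨i₁, hi₁⟩ : ∃ i₁ : Fin n, i₁ ≠ i₀ := by
      by_cases h : i₀ = ⟨0, hn0⟩
      · refine ⟨⟨1, by omega⟩, ?_⟩
        rw [h]
        intro h2
        have := congrArg Fin.val h2
        simp at this
      · exact ⟨⟨0, hn0⟩, fun h2 => h h2.symm⟩
    have hcS := hconj i₀ b hb
    rw [← hS] at hcS
    have hcastS : (((S : ℤ) : ℝ)) = (S : ℝ) := by push_cast; rfl
    rw [hcastS]
    rcases Nat.eq_zero_or_pos b with hb0 | hb0
    · subst hb0
      have h3 : (S : ℤ) ^ 2 ≤ n * d ^ 2 := by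
        have h6 : S = m i₀ := by
          rw [hS]
          ring
        rcases Nat.eq_zero_or_pos (m i₀) with h4 | h4
        · rw [h6, h4]
          positivity
        · have h5 := hEL i₀ h4
          rw [s2, ← h6] at h5
          have h7 : (S : ℤ) = k := by
            rw [hSk]
            simp
          rw [← h7] at h5
          have h8 : 1 ≤ (d : ℤ) := by
            by_contra hcon
            have h9 : d = 0 := by omega
            rw [h9] at hd
            have h10 := MvPolynomial.totalDegree_eq_zero_iff_eq_C.mp hd.symm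
            apply hf.not_isUnit
            rw [h10]
            exact (isUnit_iff_ne_zero.mpr (fun h => hf.ne_zero (by rw [h10, h, map_zero]))).map C
          have h11 : 3 * (d : ℤ) ^ 2 ≤ n * d ^ 2 :=
            mul_le_mul_of_nonneg_right (by exact_mod_cast hn) (by positivity)
          have h12 : (1 : ℤ) ≤ S := by
            rw [h6]
            exact_mod_cast h4
          push_cast at h5
          nlinarith
      have h3' : (S : ℝ) ^ 2 ≤ n * d ^ 2 := by exact_mod_cast h3
      exact (key _ (by positivity)).trans h3'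
    · rcases le_or_gt S M with hSM | hSM
      · have hS1 : 1 ≤ S := by
          rw [hS]
          have : 1 ≤ (n - 1) * b := Nat.one_le_iff_ne_zero.mpr (by
            have h1 : n - 1 ≠ 0 := by omega
            have h2 : b ≠ 0 := by omega
            exact Nat.mul_ne_zero h1 h2)
          omega
        have h3' : (S : ℝ) ^ 2 ≤ n * d ^ 2 := by exact_mod_cast hcS hS1 hSM
        exact (key _ (by positivity)).trans h3'
      · have hELb := hEL i₁ (by rw [hb i₁ hi₁]; exact hb0)
        rw [hb i₁ hi₁, s2] at hELb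
        have hnz : (3 : ℤ) ≤ n := by exact_mod_cast hn
        have hb0' : (1 : ℤ) ≤ b := by exact_mod_cast hb0
        by_cases hk0 : k = 0
        · -- uniform
          have hSb : (S : ℤ) = n * b := by
            rw [hSk, hk0, add_zero]
          rcases le_or_gt b M with hbM | hbM
          · have h3 : (n : ℤ) * b ^ 2 ≤ d ^ 2 := by
              by_contra hcon
              rw [not_le] at hcon
              have h6 : (fun i => mlt (p i) f) = fun _ => b := by
                funext i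
                rw [hmi]
                by_cases hi : i = i₀
                · rw [hi]
                  omega
                · exact hb i hi
              have h7 := hempty d (fun _ => b) (hM b d hb0 hbM (by exact_mod_cast hcon))
              have h8 : f ∈ fatSystem d (fun _ => b) p :=
                mem_fatSystem hf.ne_zero (by rw [hd]) (fun i => by rw [← congrFun h6 i])
              rw [h7] at h8
              exact hf.ne_zero (by simpa using h8)
            have h4 : (S : ℤ) ^ 2 ≤ n * d ^ 2 := by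
              rw [hSb]
              nlinarith
            have h3' : (S : ℝ) ^ 2 ≤ n * d ^ 2 := by exact_mod_cast h4
            exact (key _ (by positivity)).trans h3'
          · -- `b > M`
            have h4 : (S : ℤ) ^ 2 ≤ n * d ^ 2 + n * b := by
              rw [hSb]
              rw [hk0] at hELb
              nlinarith
            have h4' : (S : ℝ) ^ 2 ≤ n * (d : ℝ) ^ 2 + n * b := by exact_mod_cast h4
            have hSb' : (S : ℝ) = n * b := by exact_mod_cast hSb
            have hbM' : (M : ℝ) + 1 ≤ b := by exact_mod_cast hbM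
            have hbR : (0 : ℝ) < b := by exact_mod_cast hb0
            have h5 : (n : ℝ) * b ≤ (S : ℝ) ^ 2 * (1 / (((n : ℝ) - 1) * (M + 1))) := by
              rw [mul_one_div, le_div_iff₀ (mul_pos (by linarith) (by positivity)), hSb']
              have h6 : ((n : ℝ) - 1) * (M + 1) ≤ n * b :=
                mul_le_mul (by linarith) hbM' (by positivity) (by positivity)
              have h7 : (n : ℝ) * b * (((n : ℝ) - 1) * (M + 1)) ≤ n * b * (n * b) :=
                mul_le_mul_of_nonneg_left h6 (by positivity)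
              nlinarith
            nlinarith
        · have hsw' := hswap i₀ i₁ (by rw [hb i₁ hi₁]; omega)
          rw [s2, hb i₁ hi₁, ← hk] at hsw'
          refine param_num (b := b) hn ?_ hSM ?_
          · rw [hSk]
            have : 0 ≤ (b : ℤ) + k := by omega
            linarith
          · rw [hSk]
            have h4 : (n : ℤ) * (n * b ^ 2 + 2 * b * k + k ^ 2) ≤ n * (d ^ 2 + b) :=
              mul_le_mul_of_nonneg_left hELb (by omega)
            have h5 : (n : ℤ) * (n * b ^ 2 + 2 * b * k + k ^ 2) ≤ n * (d ^ 2 + k ^ 2) :=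
              mul_le_mul_of_nonneg_left hsw' (by omega)
            rcases le_or_gt (k ^ 2) (b : ℤ) with h6 | h6
            · nlinarith
            · have h7 : (b : ℤ) * (n - 1) ≤ k ^ 2 * (n - 1) :=
                mul_le_mul_of_nonneg_right h6.le (by omega)
              nlinarith

/-- **the `n`-point Seshadri constant of the line class of the plane**: if the uniform systems of
multiplicity `m ≤ M` and degree `d < √n m` are empty for general points, then
`ε(n)² ≥ (1 / n) (1 - 1 / ((n - 1) (M + 1)))`. -/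
theorem seshadri_bound {n M : ℕ} (hn : 3 ≤ n)
    (hM : ∀ m d : ℕ, 1 ≤ m → m ≤ M → d ^ 2 < n * m ^ 2 → Gen d (fun _ : Fin n => m)) :
    Real.sqrt ((1 - 1 / (((n : ℝ) - 1) * (M + 1))) / n) ≤ eps n := by
  obtain ⟨p, hp, hf⟩ := irreducible_bound hn hM
  refine le_eps (by omega) hp (all_bound (Real.sqrt_nonneg _) fun f h => ?_)
  have h1 := hf f h
  have hn0 : (0 : ℝ) < n := by
    have : 0 < n := by omega
    exact_mod_cast this
  have hn3 : (3 : ℝ) ≤ n := by exact_mod_cast hn
  have h2 : 0 ≤ ∑ i, (mlt (p i) f : ℝ) := Finset.sum_nonneg fun i _ => by positivity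
  have h3 : 0 ≤ 1 - 1 / (((n : ℝ) - 1) * (M + 1)) := by
    rw [sub_nonneg, div_le_one (mul_pos (by linarith) (by positivity))]
    have h4 : (1 : ℝ) ≤ M + 1 := by
      have : (0 : ℝ) ≤ M := by positivity
      linarith
    nlinarith
  refine (abs_le_of_sq_le_sq' ?_ (by positivity)).2
  rw [mul_pow, Real.sq_sqrt (by positivity), mul_div_assoc']
  rw [div_le_iff₀ hn0]
  linarith

end Pool.Agent.Lib.MP_ed661f_ag.A
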