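import Mathlib

open MvPolynomial

namespace Pool.Agent.Lib.MP_ed661f_ag.A

open scoped IntermediateField.algebraAdjoinAdjoin in
private theorem der_etale_aux {v : Set ℂ} (hb : IsTranscendenceBasis ℚ ((↑) : v → ℂ)) :
    Algebra.FormallyEtale (Algebra.adjoin ℚ (Set.range ((↑) : v → ℂ))) ℂ := by
  have : Algebra.FormallyEtale (Algebra.adjoin ℚ (Set.range ((↑) : v → ℂ)))
      (IntermediateField.adjoin ℚ (Set.range ((↑) : v → ℂ))) :=
    .of_isLocalization (nonZeroDivisors _)
  have halg : Algebra.IsAlgebraic (IntermediateField.adjoin ℚ (Set.range ((↑) : v → ℂ))) ℂ :=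
    hb.isAlgebraic_field
  have : Algebra.FormallyEtale (IntermediateField.adjoin ℚ (Set.range ((↑) : v → ℂ))) ℂ :=
    Algebra.FormallyEtale.of_isSeparable _ _
  exact .comp _ (IntermediateField.adjoin ℚ (Set.range ((↑) : v → ℂ))) _

/-- a derivation of the polynomial ring generated by algebraically independent numbers, with values
in the complex numbers -/
private noncomputable def derAux {v : Set ℂ} (hb : AlgebraicIndependent ℚ ((↑) : v → ℂ)) (a : v) :
    Derivation ℚ (Algebra.adjoin ℚ (Set.range ((↑) : v → ℂ))) ℂ :=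
  Derivation.mk'
    ((Algebra.linearMap (Algebra.adjoin ℚ (Set.range ((↑) : v → ℂ))) ℂ).restrictScalars ℚ ∘ₗ
      hb.aevalEquiv.toLinearMap ∘ₗ (pderiv a : Derivation ℚ (MvPolynomial v ℚ) _).toLinearMap ∘ₗ
      hb.aevalEquiv.symm.toLinearMap)
    (fun x y => by
      obtain ⟨x, rfl⟩ := hb.aevalEquiv.surjective x
      obtain ⟨y, rfl⟩ := hb.aevalEquiv.surjective y
      simp [← map_mul, Algebra.smul_def, Derivation.leibniz])

/-- derivations of `ℂ` that move one of finitely many algebraically independent numbers -/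
theorem exists_der {ι : Type} [Finite ι] {t : ι → ℂ} (ht : AlgebraicIndependent ℚ t) (i : ι) :
    ∃ D : Derivation ℚ ℂ ℂ, D (t i) = 1 ∧ ∀ j, j ≠ i → D (t j) = 0 := by
  classical
  obtain ⟨v, hv, hb⟩ := exists_isTranscendenceBasis_superset (s := Set.range t) ht.to_subtype_range
  have het := der_etale_aux hb
  set A := Algebra.adjoin ℚ (Set.range ((↑) : v → ℂ)) with hA
  have hmem : ∀ j, t j ∈ v := fun j => hv ⟨j, rfl⟩
  let a : ι → v := fun j => ⟨t j, hmem j⟩
  let d : Derivation ℚ A ℂ := derAux hb.1 (a i)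
  let L : Ω[A⁄ℚ] →ₗ[A] ℂ := d.liftKaehlerDifferential
  let L' : Ω[ℂ⁄ℚ] →ₗ[ℂ] ℂ :=
    (KaehlerDifferential.isBaseChange_of_formallyEtale ℚ A ℂ).lift L
  have key : ∀ x : A, L' (KaehlerDifferential.D ℚ ℂ (algebraMap A ℂ x)) = d x := by
    intro x
    have := (KaehlerDifferential.isBaseChange_of_formallyEtale ℚ A ℂ).lift_eq L
      (KaehlerDifferential.D ℚ A x)
    rw [KaehlerDifferential.map_D] at this
    rw [this]
    exact d.liftKaehlerDifferential_comp_D x
  let D : Derivation ℚ ℂ ℂ := L'.compDer (KaehlerDifferential.D ℚ ℂ)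
  have hD : ∀ j, D (t j) = if j = i then 1 else 0 := by
    intro j
    have h1 : t j = algebraMap A ℂ (hb.1.aevalEquiv (X (a j))) := by
      rw [AlgebraicIndependent.algebraMap_aevalEquiv]
      simp [a]
    show L' (KaehlerDifferential.D ℚ ℂ (t j)) = _
    rw [h1, key]
    show algebraMap A ℂ (hb.1.aevalEquiv (pderiv (a i)
      (hb.1.aevalEquiv.symm (hb.1.aevalEquiv (X (a j)))))) = _
    rw [AlgEquiv.symm_apply_apply, pderiv_X]
    rcases eq_or_ne j i with h | h
    · subst h
      simp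
    · have : a j ≠ a i := fun h' => h (ht.injective (by simpa [a] using h'))
      simp [h, this]
  exact ⟨D, by simp [hD], fun j hj => by simp [hD, hj]⟩

end Pool.Agent.Lib.MP_ed661f_ag.A
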