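import Pool.Agent.Lib.MP_ed661f_ag.E.Schedule
import Pool.Agent.Lib.MP_ed661f_ag.E.Generic
import Pool.Agent.Lib.MP_ed661f_ag.A.Param
import Pool.Agent.Lib.MP_6b2d39_ag.LowerBound
import Pool.Agent.Lib.MP_6b2d39_ag.SuperabundanceBound

/-!
Emptiness of uniform systems of multiplicity at most `n ^ 2 / 10 ^ 16`.
-/

open MvPolynomial

namespace Pool.Agent.Lib.MP_ed661f_ag.A

open Pool.Agent.Lib.MP_ed661f_ag.E Pool.Agent.Lib.MP_6b2d39_ag

theorem eq_bot_of_finrank {n d : ℕ} {m : Fin n → ℕ} {p : Fin n → Fin 2 → ℂ}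
    (h : Module.finrank ℂ (fatSystem d m p) = 0) : fatSystem d m p = ⊥ := by
  have h1 : fatSystem d m p ≤ MvPolynomial.restrictTotalDegree (Fin 2) ℂ d := inf_le_left
  have : FiniteDimensional ℂ (fatSystem d m p) := Submodule.finiteDimensional_of_le h1
  exact Submodule.finrank_eq_zero.mp h

/-- emptiness from the window theorem -/
theorem gen_of_window {n : ℕ} (μ : ℕ) (hμ : 1 ≤ μ) (d : ℕ) (m : Fin n → ℕ) (hm : ∀ i, m i ≤ μ)
    (h : ((d : ℤ) + 1) * (d + 2) + μ * (μ - 1) ≤ ∑ i, ((m i : ℤ) ^ 2 + m i)) : Gen d m := by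
  obtain ⟨Φ, hΦ, hΦ2⟩ := Pool.Agent.Lib.MP_6b2d39_ag.SuperabundanceBound.result μ hμ d n m
    (fun i hi => absurd hi (by have := hm i; omega))
  refine ⟨Φ, hΦ, fun p hp => eq_bot_of_finrank ?_⟩
  have h1 := hΦ2 p hp
  have h2 : ((d + 2).choose 2 : ℤ) - ∑ i, ((m i + 1).choose 2 : ℤ) + (μ.choose 2 : ℤ) ≤ 0 := by
    have hc : ∀ x : ℕ, 2 * ((x + 1).choose 2 : ℤ) = (x + 1) * x := by
      intro x
      have h3 : (x + 1).choose 2 * 2 = (x + 1) * x := by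
        rw [Nat.choose_two_right]
        exact Nat.div_mul_cancel (Nat.even_mul_pred_self (x + 1)).two_dvd
      have h4 : (((x + 1).choose 2 * 2 : ℕ) : ℤ) = (((x + 1) * x : ℕ) : ℤ) := by rw [h3]
      push_cast at h4
      linarith
    have e1 : 2 * ((d + 2).choose 2 : ℤ) = (d + 1) * (d + 2) := by
      have := hc (d + 1)
      push_cast at this
      linarith
    have e2 : 2 * (μ.choose 2 : ℤ) = μ * (μ - 1) := by
      obtain ⟨ν, rfl⟩ : ∃ ν, μ = ν + 1 := ⟨μ - 1, by omega⟩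
      have := hc ν
      push_cast
      linarith
    have e3 : 2 * ∑ i, ((m i + 1).choose 2 : ℤ) = ∑ i, ((m i : ℤ) ^ 2 + m i) := by
      rw [Finset.mul_sum]
      refine Finset.sum_congr rfl fun i _ => ?_
      have := hc (m i)
      linarith
    linarith
  omega

/-- emptiness of uniform systems -/
theorem gen_uniform {n b d : ℕ} (hn : 10 ^ 14 ≤ n) (hb : 1 ≤ b) (h1 : 10 ^ 16 * b ≤ n ^ 2)
    (h2 : d ^ 2 < n * b ^ 2) : Gen d (fun _ : Fin n => b) := by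
  rcases le_or_gt n (2 * b) with h3 | h3
  · exact generic_of_emp (emp_main (by simpa using hn) h3 (by simpa using h1) h2)
  · refine gen_of_window b hb d _ (fun _ => le_rfl) ?_
    simp only [Finset.sum_const, Finset.card_univ, Fintype.card_fin, nsmul_eq_mul]
    have hn' : (10 : ℤ) ^ 14 ≤ n := by exact_mod_cast hn
    have hb' : (1 : ℤ) ≤ b := by exact_mod_cast hb
    have h2' : (d : ℤ) ^ 2 + 1 ≤ n * b ^ 2 := by exact_mod_cast h2
    have h3' : 2 * (b : ℤ) + 1 ≤ n := by exact_mod_cast h3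
    have h4 : 1000000 * (d : ℤ) ≤ b * n := by
      have : (1000000 * (d : ℤ)) ^ 2 ≤ (b * n) ^ 2 := by
        have : (10 : ℤ) ^ 14 * (b ^ 2 * n) ≤ n * (b ^ 2 * n) :=
          mul_le_mul_of_nonneg_right hn' (by positivity)
        nlinarith
      exact abs_le_of_sq_le_sq' this (by positivity) |>.2
    have h5 : 2 * (b : ℤ) * b + b ≤ n * b := by nlinarith
    have h6 : (10 : ℤ) ^ 14 * b ≤ n * b := mul_le_mul_of_nonneg_right hn' (by positivity)
    nlinarith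

theorem seshadri_cubic {n : ℕ} (hn : 10 ^ 14 ≤ n) :
    Real.sqrt ((1 - 10 ^ 17 / (n : ℝ) ^ 3) / n) ≤ eps n := by
  have hn0 : (10 : ℝ) ^ 14 ≤ n := by exact_mod_cast hn
  have hnpos : (0 : ℝ) < n := by linarith
  have hn3 : 3 ≤ n := le_trans (by norm_num) hn
  refine le_trans (Real.sqrt_le_sqrt ?_) (seshadri_bound (M := n ^ 2 / 10 ^ 16) hn3 ?_)
  · refine div_le_div_of_nonneg_right ?_ hnpos.le
    have h1 : (n : ℝ) ^ 2 / 10 ^ 16 ≤ ((n ^ 2 / 10 ^ 16 : ℕ) : ℝ) + 1 := by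
      have h2 : n ^ 2 < (n ^ 2 / 10 ^ 16 + 1) * 10 ^ 16 :=
        Nat.lt_mul_of_div_lt (Nat.lt_succ_self _) (by norm_num)
      have h3 : (n : ℝ) ^ 2 < (((n ^ 2 / 10 ^ 16 : ℕ) : ℝ) + 1) * 10 ^ 16 := by exact_mod_cast h2
      rw [div_le_iff₀ (by positivity)]
      exact h3.le
    have h4 : 0 < ((n : ℝ) - 1) * ((n : ℝ) ^ 2 / 10 ^ 16) :=
      mul_pos (by linarith) (by positivity)
    have h5 : ((n : ℝ) - 1) * ((n : ℝ) ^ 2 / 10 ^ 16) ≤
        ((n : ℝ) - 1) * (((n ^ 2 / 10 ^ 16 : ℕ) : ℝ) + 1) :=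
      mul_le_mul_of_nonneg_left h1 (by linarith)
    have h6 : 1 / (((n : ℝ) - 1) * (((n ^ 2 / 10 ^ 16 : ℕ) : ℝ) + 1)) ≤
        1 / (((n : ℝ) - 1) * ((n : ℝ) ^ 2 / 10 ^ 16)) := one_div_le_one_div_of_le h4 h5
    have h7 : 1 / (((n : ℝ) - 1) * ((n : ℝ) ^ 2 / 10 ^ 16)) ≤ 10 ^ 17 / (n : ℝ) ^ 3 := by
      rw [div_le_div_iff₀ h4 (by positivity)]
      have h8 : 0 < (n : ℝ) ^ 2 := by positivity
      nlinarith
    linarith
  · intro m d hm1 hm2 hd
    refine gen_uniform hn hm1 ?_ hd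
    have := (Nat.le_div_iff_mul_le (by norm_num : 0 < 10 ^ 16)).mp hm2
    linarith

end Pool.Agent.Lib.MP_ed661f_ag.A
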